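import Mathlib
import Pool.Agent.H42.Stk2

open Pool.Agent.H42.Stk

/-- Under Friedman's principle at `ω₂` (a consequence of Martin's Maximum), some continuous
Hausdorff image of a Stäckel-compact space is not Stäckel-compact. -/
theorem Pool.Agent.Results.MP_06c979_gt.Cons.result (h : Fr) :
    ∃ (X Y : Type) (_ : TopologicalSpace X) (_ : TopologicalSpace Y) (f : X → Y),
      Stackel X ∧ T2Space Y ∧ Continuous f ∧ ¬ Stackel (Set.range f) :=
  img h
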